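import Mathlib

/-!
# FINE: one-dimensional energy pigeonhole

A nondecreasing function with increments at most one, seen in `M` blocks of length `L`. There is
one scale `h` such that every block which is not full contains a run of `2 B + 1` consecutive
intervals of length `h` none of which is full.
-/

set_option autoImplicit false

namespace Pool.FINE2

open Finset

/-- The growth of `f` on the interval number `a` of length `s`, from `x`. -/
def gr (f : ℕ → ℝ) (x s a : ℕ) : ℝ := f (x + (a + 1) * s) - f (x + a * s)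

theorem gr_sum (f : ℕ → ℝ) (x s n : ℕ) : ∑ a ∈ range n, gr f x s a = f (x + n * s) - f x := by
  have h := Finset.sum_range_sub (fun a => f (x + a * s)) n
  simp only [Nat.zero_mul, Nat.add_zero] at h
  rw [← h]
  rfl

theorem gr_children (f : ℕ → ℝ) (x s q a : ℕ) :
    ∑ b ∈ range q, gr f x s (a * q + b) = gr f x (q * s) a := by
  have h := Finset.sum_range_sub (fun b => f (x + (a * q + b) * s)) q
  have e1 : x + (a * q + q) * s = x + (a + 1) * (q * s) := by ring
  have e2 : x + (a * q + 0) * s = x + a * (q * s) := by ring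
  rw [e1, e2] at h
  unfold gr
  rw [← h]
  refine Finset.sum_congr rfl fun b _ => ?_
  rw [add_assoc (a * q) b 1]

theorem gr_nonneg {f : ℕ → ℝ} (hf : Monotone f) (x s a : ℕ) : 0 ≤ gr f x s a := by
  unfold gr
  have : f (x + a * s) ≤ f (x + (a + 1) * s) := hf (by
    have : a * s ≤ (a + 1) * s := Nat.mul_le_mul_right s (Nat.le_succ a)
    omega)
  linarith

theorem grow {f : ℕ → ℝ} (h1 : ∀ n, f (n + 1) ≤ f n + 1) (x n : ℕ) : f (x + n) ≤ f x + n := by
  induction n with
  | zero => simp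
  | succ n ih =>
    have := h1 (x + n)
    rw [← add_assoc]
    push_cast
    linarith

theorem gr_le {f : ℕ → ℝ} (h1 : ∀ n, f (n + 1) ≤ f n + 1) (x s a : ℕ) : gr f x s a ≤ s := by
  unfold gr
  have := grow h1 (x + a * s) s
  have e : x + (a + 1) * s = x + a * s + s := by ring
  rw [e]
  linarith

/-- The variance identity. -/
theorem var_id (q : ℕ) (hq : 0 < q) (g : ℕ → ℝ) (G : ℝ) (hG : ∑ b ∈ range q, g b = G) :
    ∑ b ∈ range q, (g b - G / q) ^ 2 = ∑ b ∈ range q, g b ^ 2 - G ^ 2 / q := by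
  have hq0 : (q : ℝ) ≠ 0 := by
    have : (0 : ℝ) < q := by exact_mod_cast hq
    exact this.ne'
  have e : ∀ b, (g b - G / q) ^ 2 = g b ^ 2 - 2 * (G / q) * g b + (G / q) ^ 2 := fun b => by ring
  simp only [e]
  rw [Finset.sum_add_distrib, Finset.sum_sub_distrib, ← Finset.mul_sum, hG, Finset.sum_const,
    Finset.card_range, nsmul_eq_mul]
  field_simp
  ring

/-- The energy at the scale `s`, in `n` intervals. -/
noncomputable def en (f : ℕ → ℝ) (x s n : ℕ) : ℝ := ∑ a ∈ range n, gr f x s a ^ 2 / s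

theorem sum_split (g : ℕ → ℝ) (n q : ℕ) :
    ∑ i ∈ range (n * q), g i = ∑ a ∈ range n, ∑ b ∈ range q, g (a * q + b) := by
  induction n with
  | zero => simp
  | succ n ih =>
    rw [Nat.succ_mul, Finset.sum_range_add, ih, Finset.sum_range_succ]

/-- The increment of the energy. -/
theorem en_incr (f : ℕ → ℝ) (x s n q : ℕ) (hq : 0 < q) :
    en f x s (n * q) - en f x (q * s) n =
      ∑ a ∈ range n, (∑ b ∈ range q, (gr f x s (a * q + b) - gr f x (q * s) a / q) ^ 2) / s := by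
  unfold en
  rw [sum_split, ← Finset.sum_sub_distrib]
  refine Finset.sum_congr rfl fun a _ => ?_
  rw [var_id q hq (fun b => gr f x s (a * q + b)) _ (gr_children f x s q a)]
  rw [← Finset.sum_div]
  push_cast
  rw [sub_div, div_div]

theorem en_incr_nonneg (f : ℕ → ℝ) (x s n q : ℕ) (hq : 0 < q) :
    0 ≤ en f x s (n * q) - en f x (q * s) n := by
  rw [en_incr f x s n q hq]
  refine Finset.sum_nonneg fun a _ => div_nonneg (Finset.sum_nonneg fun b _ => sq_nonneg _) ?_
  exact Nat.cast_nonneg s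

theorem en_nonneg (f : ℕ → ℝ) (x s n : ℕ) : 0 ≤ en f x s n :=
  Finset.sum_nonneg fun a _ => div_nonneg (sq_nonneg _) (Nat.cast_nonneg s)

theorem en_le {f : ℕ → ℝ} (hf : Monotone f) (h1 : ∀ n, f (n + 1) ≤ f n + 1) (x s n : ℕ)
    (hs : 0 < s) : en f x s n ≤ (n * s : ℕ) := by
  have hs0 : (0 : ℝ) < s := by exact_mod_cast hs
  have h2 : en f x s n ≤ ∑ a ∈ range n, gr f x s a := by
    refine Finset.sum_le_sum fun a _ => ?_
    rw [div_le_iff₀ hs0, sq]
    exact mul_le_mul_of_nonneg_left (gr_le h1 x s a) (gr_nonneg hf x s a)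
  rw [gr_sum] at h2
  have := grow h1 x (n * s)
  linarith

/-- One block: if no run of children is all not full, then the energy grows. -/
theorem en_gap {f : ℕ → ℝ} (hf : Monotone f) (x s n q : ℕ) (hq : 0 < q) (hs : 0 < s) (c : ℝ)
    (hc : 0 < c) (hc1 : c ≤ 1) (hlow : f (x + n * (q * s)) - f x ≤ (1 - c) * (n * (q * s) : ℕ))
    (hno : ∀ a < n, ∃ b < q, (1 - c / 2) * s < gr f x s (a * q + b)) :
    c ^ 3 / 64 * (n * s : ℕ) ≤ en f x s (n * q) - en f x (q * s) n := by
  have hs0 : (0 : ℝ) < s := by exact_mod_cast hs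
  have hq0 : (0 : ℝ) < q := by exact_mod_cast hq
  rw [en_incr f x s n q hq]
  have key : ∀ a ∈ range n, c ^ 2 / (16 * q) * ((1 - 3 * c / 4) * (q * s) - gr f x (q * s) a) ≤
      (∑ b ∈ range q, (gr f x s (a * q + b) - gr f x (q * s) a / q) ^ 2) / s := by
    intro a ha
    have hT : 0 ≤ (∑ b ∈ range q, (gr f x s (a * q + b) - gr f x (q * s) a / q) ^ 2) / s :=
      div_nonneg (Finset.sum_nonneg fun b _ => sq_nonneg _) hs0.le
    rcases le_total ((1 - 3 * c / 4) * (q * s)) (gr f x (q * s) a) with h | h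
    · refine le_trans ?_ hT
      refine mul_nonpos_of_nonneg_of_nonpos (by positivity) (by linarith)
    · obtain ⟨b, hb, hgb⟩ := hno a (Finset.mem_range.1 ha)
      have hG0 := gr_nonneg hf x (q * s) a
      -- the mean is smaller
      have hmean : gr f x (q * s) a / q ≤ (1 - 3 * c / 4) * s := by
        rw [div_le_iff₀ hq0]
        calc _ ≤ _ := h
          _ = _ := by ring
      have hdev : c / 4 * s ≤ gr f x s (a * q + b) - gr f x (q * s) a / q := by
        have : (1 - c / 2) * s - (1 - 3 * c / 4) * s = c / 4 * s := by ring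
        linarith
      have hsq : (c / 4 * s) ^ 2 ≤ ∑ b ∈ range q,
          (gr f x s (a * q + b) - gr f x (q * s) a / q) ^ 2 := by
        refine le_trans (pow_le_pow_left₀ (by positivity) hdev 2) ?_
        exact Finset.single_le_sum (f := fun b =>
          (gr f x s (a * q + b) - gr f x (q * s) a / q) ^ 2) (fun b _ => sq_nonneg _)
          (Finset.mem_range.2 hb)
      have h2 : c ^ 2 / 16 * s ≤
          (∑ b ∈ range q, (gr f x s (a * q + b) - gr f x (q * s) a / q) ^ 2) / s := by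
        rw [le_div_iff₀ hs0]
        refine le_trans (le_of_eq ?_) hsq
        ring
      refine le_trans ?_ h2
      have h3 : (1 - 3 * c / 4) * (q * s) - gr f x (q * s) a ≤ q * s := by
        have : (1 - 3 * c / 4) * ((q : ℝ) * s) ≤ 1 * (q * s) :=
          mul_le_mul_of_nonneg_right (by linarith) (by positivity)
        linarith
      calc c ^ 2 / (16 * q) * ((1 - 3 * c / 4) * (q * s) - gr f x (q * s) a)
          ≤ c ^ 2 / (16 * q) * (q * s) := mul_le_mul_of_nonneg_left h3 (by positivity)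
        _ = c ^ 2 / 16 * s := by field_simp
  refine le_trans ?_ (Finset.sum_le_sum key)
  rw [← Finset.mul_sum, Finset.sum_sub_distrib, Finset.sum_const, Finset.card_range,
    nsmul_eq_mul, gr_sum]
  push_cast at hlow ⊢
  have h4 : c / 4 * (n * (q * s)) ≤ (n : ℝ) * ((1 - 3 * c / 4) * (q * s)) -
      (f (x + n * (q * s)) - f x) := by
    have e : (n : ℝ) * ((1 - 3 * c / 4) * (q * s)) = (1 - c) * (n * (q * s)) +
      c / 4 * (n * (q * s)) := by ring
    rw [e]
    linarith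
  calc c ^ 3 / 64 * ((n : ℝ) * s) = c ^ 2 / (16 * q) * (c / 4 * (n * (q * s))) := by
        field_simp
        ring
    _ ≤ _ := mul_le_mul_of_nonneg_left h4 (by positivity)

/-- The core: the scales are `L / q ^ n`. -/
theorem fine_core (q M n₀ : ℕ) (hq : 0 < q) (c : ℝ) (hc : 0 < c) (hc1 : c ≤ 1)
    (hn₀ : 64 * M * q < c ^ 3 * n₀) (f : ℕ → ℝ) (hf : Monotone f)
    (h1 : ∀ n, f (n + 1) ≤ f n + 1) (L : ℕ) (hL : 0 < L) (hd : q ^ n₀ ∣ L) :
    ∃ n < n₀, ∀ l < M, f ((l + 1) * L) - f (l * L) ≤ (1 - c) * L →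
      ∃ a < q ^ n, ∀ b < q, gr f (l * L) (L / q ^ (n + 1)) (a * q + b) ≤
        (1 - c / 2) * (L / q ^ (n + 1) : ℕ) := by
  by_contra hcon
  push Not at hcon
  have hq0 : (0 : ℝ) < q := by exact_mod_cast hq
  have hLr : (0 : ℝ) < L := by exact_mod_cast hL
  -- the scales
  have hdvd : ∀ n ≤ n₀, q ^ n ∣ L := fun n hn => (pow_dvd_pow q hn).trans hd
  have hs : ∀ n ≤ n₀, q ^ n * (L / q ^ n) = L := fun n hn => Nat.mul_div_cancel' (hdvd n hn)
  have hs0 : ∀ n ≤ n₀, 0 < L / q ^ n := fun n hn =>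
    Nat.div_pos (Nat.le_of_dvd hL (hdvd n hn)) (pow_pos hq n)
  have hsS : ∀ n < n₀, L / q ^ n = q * (L / q ^ (n + 1)) := by
    intro n hn
    have e1 := hs n hn.le
    have e2 := hs (n + 1) hn
    have e3 : q ^ n * (q * (L / q ^ (n + 1))) = q ^ n * (L / q ^ n) := by
      rw [e1, ← mul_assoc, ← pow_succ, e2]
    exact (Nat.eq_of_mul_eq_mul_left (pow_pos hq n) e3).symm
  -- the energies
  obtain ⟨E, hE⟩ : ∃ E : ℕ → ℝ, E = fun n => ∑ l ∈ range M, en f (l * L) (L / q ^ n) (q ^ n) :=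
    ⟨_, rfl⟩
  have hE0 : 0 ≤ E 0 := by
    rw [hE]
    exact Finset.sum_nonneg fun l _ => en_nonneg _ _ _ _
  have hEn : E n₀ ≤ M * L := by
    rw [hE]
    calc ∑ l ∈ range M, en f (l * L) (L / q ^ n₀) (q ^ n₀)
        ≤ ∑ _l ∈ range M, (L : ℝ) := by
          refine Finset.sum_le_sum fun l _ => ?_
          have := en_le hf h1 (l * L) (L / q ^ n₀) (q ^ n₀) (hs0 n₀ le_rfl)
          rwa [hs n₀ le_rfl] at this
      _ = M * L := by rw [Finset.sum_const, Finset.card_range, nsmul_eq_mul]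
  have hinc : ∀ n < n₀, c ^ 3 / 64 * (L / q) ≤ E (n + 1) - E n := by
    intro n hn
    obtain ⟨l, hl, hlow, hno⟩ := hcon n hn
    rw [hE]
    simp only
    rw [← Finset.sum_sub_distrib]
    have hpos : ∀ l' ∈ range M, 0 ≤ en f (l' * L) (L / q ^ (n + 1)) (q ^ (n + 1)) -
        en f (l' * L) (L / q ^ n) (q ^ n) := by
      intro l' _
      rw [hsS n hn, pow_succ]
      exact en_incr_nonneg f (l' * L) (L / q ^ n / q) (q ^ n) q hq |> fun h => by
        have e : L / (q ^ n * q) = L / q ^ n / q := (Nat.div_div_eq_div_mul _ _ _).symm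
        rw [e]
        exact h
    refine le_trans ?_ (Finset.single_le_sum (f := fun l' =>
      en f (l' * L) (L / q ^ (n + 1)) (q ^ (n + 1)) - en f (l' * L) (L / q ^ n) (q ^ n)) hpos
      (Finset.mem_range.2 hl))
    have hh := en_gap hf (l * L) (L / q ^ (n + 1)) (q ^ n) q hq (hs0 (n + 1) hn) c hc hc1 (by
      rw [← hsS n hn, hs n hn.le]
      have e : l * L + L = (l + 1) * L := by ring
      rw [e]
      exact hlow) hno
    rw [← pow_succ, ← hsS n hn] at hh
    refine le_trans (le_of_eq ?_) hh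
    have e2 := hs (n + 1) hn
    have e3 : (q : ℝ) * ((q ^ n * (L / q ^ (n + 1)) : ℕ) : ℝ) = L := by
      have : q * (q ^ n * (L / q ^ (n + 1))) = L := by
        rw [← mul_assoc, ← pow_succ']
        exact e2
      exact_mod_cast this
    rw [← e3]
    field_simp
  have hsum : ∀ n ≤ n₀, n * (c ^ 3 / 64 * (L / q)) ≤ E n - E 0 := by
    intro n
    induction n with
    | zero => intro _; simp
    | succ n ih =>
      intro hn
      have := ih (by omega)
      have := hinc n (by omega)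
      push_cast
      linarith
  have h5 := hsum n₀ le_rfl
  have h6 : (n₀ : ℝ) * (c ^ 3 / 64 * (L / q)) ≤ M * L := by linarith
  have h7 : (n₀ : ℝ) * (c ^ 3 / 64 * (L / q)) = (c ^ 3 * n₀) * (L / (64 * q)) := by
    field_simp
  have h8 : (M : ℝ) * L = (64 * M * q) * (L / (64 * q)) := by
    field_simp
  rw [h7, h8] at h6
  have h9 : (0 : ℝ) < L / (64 * q) := by positivity
  exact absurd (lt_of_lt_of_le (mul_lt_mul_of_pos_right hn₀ h9) h6) (lt_irrefl _)

/-- **(FINE)** There is one scale `h = L / r ^ (j + 1)` such that every block of length `L` which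
is not full contains `2 B + 1` consecutive intervals of length `h` which are not full. -/
theorem fine_run (c : ℝ) (hc : 0 < c) (B r M : ℕ) (hr : 2 ≤ r) : ∃ j₀ : ℕ, ∀ f : ℕ → ℝ,
    Monotone f → (∀ n, f (n + 1) ≤ f n + 1) → ∀ L : ℕ, 0 < L → r ^ (j₀ + 1) ∣ L →
    ∃ j ≤ j₀, ∃ h : ℕ, h = L / r ^ (j + 1) ∧ 0 < h ∧ h * r ^ (j + 1) = L ∧
      ∀ l < M, f ((l + 1) * L) - f (l * L) ≤ (1 - c) * L →
        ∃ R : ℕ, h ∣ R ∧ l * L ≤ R ∧ R + (2 * B + 1) * h ≤ (l + 1) * L ∧
          ∀ i ≤ 2 * B, f (R + (i + 1) * h) - f (R + i * h) ≤ (1 - c / 2) * h := by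
  rcases lt_or_ge 1 c with hc1 | hc1
  · refine ⟨0, fun f hf _ L hL hd => ⟨0, le_rfl, L / r ^ (0 + 1), rfl, ?_, ?_, ?_⟩⟩
    · exact Nat.div_pos (Nat.le_of_dvd hL hd) (by positivity)
    · exact Nat.div_mul_cancel hd
    · intro l _ hlow
      exfalso
      have h1 : f (l * L) ≤ f ((l + 1) * L) := hf (Nat.mul_le_mul_right L (Nat.le_succ l))
      have h2 : (0 : ℝ) < L := by exact_mod_cast hL
      nlinarith
  obtain ⟨k, hk⟩ : ∃ k, k = 2 * B + 1 := ⟨_, rfl⟩
  obtain ⟨q, hq⟩ : ∃ q, q = r ^ k := ⟨_, rfl⟩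
  have hqk : 2 * B + 1 < q := by
    rw [hq, ← hk]
    calc k < 2 ^ k := Nat.lt_two_pow_self
      _ ≤ r ^ k := Nat.pow_le_pow_left hr k
  have hq0 : 0 < q := by omega
  obtain ⟨n₀, hn₀⟩ := exists_nat_gt (64 * M * q / c ^ 3 : ℝ)
  have hn₀' : 64 * M * q < c ^ 3 * n₀ := by
    rw [div_lt_iff₀ (by positivity)] at hn₀
    linarith
  refine ⟨k * n₀, fun f hf h1 L hL hd => ?_⟩
  have hd' : q ^ n₀ ∣ L := by
    rw [hq, ← pow_mul]
    exact (pow_dvd_pow r (Nat.le_succ _)).trans hd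
  obtain ⟨n, hn, hmain⟩ := fine_core q M n₀ hq0 c hc hc1 hn₀' f hf h1 L hL hd'
  have hkn : 1 ≤ k * (n + 1) := by
    have : 1 ≤ k := by omega
    exact Nat.mul_pos this (Nat.succ_pos n)
  have hkn2 : k * (n + 1) ≤ k * n₀ := Nat.mul_le_mul_left k hn
  have hj : k * (n + 1) - 1 + 1 = k * (n + 1) := by omega
  have hpow : r ^ (k * (n + 1) - 1 + 1) = q ^ (n + 1) := by
    rw [hj, hq, ← pow_mul]
  have hdn : q ^ (n + 1) ∣ L := (pow_dvd_pow q hn).trans hd'
  refine ⟨k * (n + 1) - 1, by omega, L / r ^ (k * (n + 1) - 1 + 1), rfl, ?_, ?_, ?_⟩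
  · rw [hpow]
    exact Nat.div_pos (Nat.le_of_dvd hL hdn) (pow_pos hq0 _)
  · rw [hpow]
    exact Nat.div_mul_cancel hdn
  intro l hl hlow
  rw [hpow]
  obtain ⟨a, ha, hab⟩ := hmain l hl hlow
  obtain ⟨h, hh⟩ : ∃ h, h = L / q ^ (n + 1) := ⟨_, rfl⟩
  rw [← hh] at hab ⊢
  have hhL : q ^ (n + 1) * h = L := by
    rw [hh]
    exact Nat.mul_div_cancel' hdn
  refine ⟨l * L + a * q * h, ?_, Nat.le_add_right _ _, ?_, ?_⟩
  · refine Dvd.dvd.add ?_ (Dvd.intro_left _ rfl)
    refine Dvd.dvd.mul_left ?_ l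
    rw [← hhL]
    exact Dvd.intro_left _ rfl
  · have e1 : (a * q + (2 * B + 1)) * h ≤ L := by
      have h2 : a * q + (2 * B + 1) ≤ q ^ (n + 1) := by
        have h3 : (a + 1) * q ≤ q ^ n * q := Nat.mul_le_mul_right q ha
        rw [pow_succ]
        have h4 : (a + 1) * q = a * q + q := by ring
        omega
      calc _ ≤ q ^ (n + 1) * h := Nat.mul_le_mul_right h h2
        _ = L := hhL
    have e2 : l * L + a * q * h + (2 * B + 1) * h = l * L + (a * q + (2 * B + 1)) * h := by ring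
    have e3 : (l + 1) * L = l * L + L := by ring
    rw [e2, e3]
    omega
  · intro i hi
    have h2 := hab i (by omega)
    unfold gr at h2
    have e1 : l * L + a * q * h + (i + 1) * h = l * L + (a * q + i + 1) * h := by ring
    have e2 : l * L + a * q * h + i * h = l * L + (a * q + i) * h := by ring
    rw [e1, e2]
    exact h2

/-- **(FINE)**, around a centre `R`: the intervals `(R + i h, R + (i + 1) h]`, `|i| ≤ B`, are not
full. -/
theorem fine_thm (c : ℝ) (hc : 0 < c) (B r M : ℕ) (hr : 2 ≤ r) : ∃ j₀ : ℕ, ∀ f : ℕ → ℝ,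
    Monotone f → (∀ n, f (n + 1) ≤ f n + 1) → ∀ L : ℕ, 0 < L → r ^ (j₀ + 1) ∣ L →
    ∃ j ≤ j₀, ∃ h : ℕ, h = L / r ^ (j + 1) ∧ 0 < h ∧ h * r ^ (j + 1) = L ∧
      ∀ l < M, f ((l + 1) * L) - f (l * L) ≤ (1 - c) * L →
        ∃ R : ℕ, h ∣ R ∧ l * L + B * h ≤ R ∧ R + (B + 1) * h ≤ (l + 1) * L ∧
          (∀ i ≤ B, f (R + (i + 1) * h) - f (R + i * h) ≤ (1 - c / 2) * h) ∧
          ∀ i ≤ B, f (R - i * h + h) - f (R - i * h) ≤ (1 - c / 2) * h := by
  obtain ⟨j₀, hj₀⟩ := fine_run c hc B r M hr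
  refine ⟨j₀, fun f hf h1 L hL hd => ?_⟩
  obtain ⟨j, hj, h, hh, hh0, hhL, hmain⟩ := hj₀ f hf h1 L hL hd
  refine ⟨j, hj, h, hh, hh0, hhL, fun l hl hlow => ?_⟩
  obtain ⟨R, hR1, hR2, hR3, hR4⟩ := hmain l hl hlow
  refine ⟨R + B * h, hR1.add (Dvd.intro_left _ rfl), by omega, ?_, ?_, ?_⟩
  · have e : R + B * h + (B + 1) * h = R + (2 * B + 1) * h := by ring
    rw [e]
    exact hR3
  · intro i hi
    have h2 := hR4 (B + i) (by omega)
    have e1 : R + B * h + (i + 1) * h = R + (B + i + 1) * h := by ring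
    have e2 : R + B * h + i * h = R + (B + i) * h := by ring
    rw [e1, e2]
    exact h2
  · intro i hi
    have h2 := hR4 (B - i) (by omega)
    have e0 : B * h = (B - i) * h + i * h := by
      rw [← Nat.add_mul]
      congr 1
      omega
    have e2 : R + B * h - i * h = R + (B - i) * h := by
      rw [e0]
      omega
    rw [e2]
    have e1 : R + (B - i) * h + h = R + (B - i + 1) * h := by ring
    rw [e1]
    exact h2

end Pool.FINE2
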